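import Mathlib
import Pool.Agent.H771R2.Dens

/-!
# A density argument for pairs of conditions: `n` in a class modulo `q`, and an event modulo `r ^ 2`
-/

set_option autoImplicit false

namespace Pool.Agent.Q242.PO

open Filter Topology Finset Classical Pool.Agent.H771R2.Dens

/-- an event modulo `r ^ 2` which contains all but one of the lifts of one class modulo `r` -/
theorem per_of_many {r : ℕ} (hr : r.Prime) (E : ℕ → Prop) (hper : ∀ n, E (n + r ^ 2) ↔ E n)
    {a t0 : ℕ} (ha : a < r) (hE : ∀ t, t < r → t ≠ t0 → E (a + r * t)) :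
    Per (fun n => ¬ E n) (r ^ 2) (Real.exp (-(1 / (2 * (r : ℝ))))) := by
  have hr0 : 0 < r := hr.pos
  refine ⟨by positivity, fun n => ?_, ?_⟩
  · change ¬ E (n + r ^ 2) ↔ ¬ E n
    rw [hper]
  have h1 : cnt (fun n => ¬ E n) (r ^ 2) + (r - 1) ≤ r ^ 2 := by
    have h3 : cnt (fun n => ¬ E n) (r ^ 2) ≤
        ((range (r ^ 2)) \ (((range r).erase t0).image (fun i => a + r * i))).card := by
      apply cnt_le_card
      intro n hn hn'
      rw [Finset.mem_sdiff, mem_range]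
      refine ⟨hn, fun h => hn' ?_⟩
      rw [mem_image] at h
      obtain ⟨i, hi, rfl⟩ := h
      rw [mem_erase, mem_range] at hi
      exact hE i hi.2 hi.1
    have h4 : ((range r).erase t0).image (fun i => a + r * i) ⊆ range (r ^ 2) := by
      intro n hn
      rw [mem_image] at hn
      obtain ⟨i, hi, rfl⟩ := hn
      rw [mem_erase, mem_range] at hi
      rw [mem_range, sq]
      have h5 : r * (i + 1) ≤ r * r := Nat.mul_le_mul_left r (by omega)
      rw [Nat.mul_add, Nat.mul_one] at h5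
      omega
    rw [card_sdiff_of_subset h4, card_image_of_injective _ (fun x y h => by
      have h5 : a + r * x = a + r * y := h
      exact Nat.eq_of_mul_eq_mul_left hr0 (by omega)), card_range] at h3
    have h6 : r - 1 ≤ ((range r).erase t0).card := by
      have := Finset.pred_card_le_card_erase (s := range r) (a := t0)
      rwa [card_range] at this
    have h5 : ((range r).erase t0).card ≤ r ^ 2 := by
      refine (card_le_card (erase_subset _ _)).trans ?_
      rw [card_range]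
      nlinarith
    omega
  have hr2 : (2 : ℝ) ≤ r := by exact_mod_cast hr.two_le
  have h2 : (cnt (fun n => ¬ E n) (r ^ 2) : ℝ) + (r - 1) ≤ (r : ℝ) ^ 2 := by
    have h := (Nat.cast_le (α := ℝ)).2 h1
    push_cast [Nat.cast_sub hr.one_lt.le] at h
    exact h
  have hr' : (0 : ℝ) < r := by linarith
  have h3 := Real.add_one_le_exp (-(1 / (2 * (r : ℝ))))
  have h4 : (r : ℝ) ^ 2 - (r - 1) ≤ (-(1 / (2 * (r : ℝ))) + 1) * (r : ℝ) ^ 2 := by
    have : (-(1 / (2 * (r : ℝ))) + 1) * (r : ℝ) ^ 2 = r ^ 2 - r / 2 := by field_simp; ring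
    rw [this]
    linarith
  calc (cnt (fun n => ¬ E n) (r ^ 2) : ℝ) ≤ (r : ℝ) ^ 2 - (r - 1) := by linarith
    _ ≤ (-(1 / (2 * (r : ℝ))) + 1) * (r : ℝ) ^ 2 := h4
    _ ≤ Real.exp (-(1 / (2 * (r : ℝ)))) * (r : ℝ) ^ 2 := mul_le_mul_of_nonneg_right h3 (by positivity)
    _ = _ := by push_cast; ring

/-- the density theorem -/
theorem tendsto_zero_ev (S : ℕ → Prop) (Q : ℕ → Prop) (c : ℕ → ℕ) (R : ℕ → ℕ → Prop)
    (E : ℕ → ℕ → Prop) (hQ : Big Q) (hR : ∀ q, q.Prime → Q q → Big (R q))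
    (hE : ∀ q r, q.Prime → Q q → r.Prime → R q r →
      Per (fun n => ¬ E r n) (r ^ 2) (Real.exp (-(1 / (2 * (r : ℝ))))))
    (hS : ∀ n, S n → ∀ q, q.Prime → Q q → n % q = c q % q → ∀ r, r.Prime → R q r → E r n →
      False) :
    Tendsto (fun N : ℕ => (cnt S N : ℝ) / N) atTop (𝓝 0) := by
  rw [Metric.tendsto_atTop]
  intro ε hε
  obtain ⟨F, hF, hFε⟩ := exists_exp_small hQ (ε := ε / 4) (by positivity)
  have hcardF : (0 : ℝ) < (F.card : ℝ) + 1 := by positivity
  have h1 : ∀ q ∈ F, ∃ P : Finset ℕ, (∀ r ∈ P, r.Prime ∧ R q r) ∧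
      Real.exp (-(∑ r ∈ P, 1 / (r : ℝ)) / 2) ≤ ε / 4 / (F.card + 1) := fun q hq =>
    exists_exp_small (hR q (hF q hq).1 (hF q hq).2) (by positivity)
  choose! P hP hPε using h1
  have hA : Per (fun n => ∀ q ∈ F, n % q ≠ c q % q) (∏ q ∈ F, q)
      (∏ q ∈ F, Real.exp (-(1 / (q : ℝ)))) :=
    Per.forall F (fun q n => n % q ≠ c q % q) (fun q => q) _
      (fun q hq => per_ne (hF q hq).1.pos _) (fun q _ => (Real.exp_pos _).le)
      (fun q hq q' hq' h => (Nat.coprime_primes (hF q hq).1 (hF q' hq').1).2 h)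
  have hA' : (∏ q ∈ F, Real.exp (-(1 / (q : ℝ)))) ≤ ε / 4 := by
    rw [← Real.exp_sum, sum_neg_distrib]
    refine le_trans ?_ hFε
    rw [Real.exp_le_exp]
    have : 0 ≤ ∑ q ∈ F, 1 / (q : ℝ) := sum_nonneg fun q _ => by positivity
    linarith
  have hB : ∀ q ∈ F, Per (fun n => ∀ r ∈ P q, ¬ E r n) (∏ r ∈ P q, r ^ 2)
      (∏ r ∈ P q, Real.exp (-(1 / (2 * (r : ℝ))))) := fun q hq =>
    Per.forall (P q) (fun r n => ¬ E r n) (fun r => r ^ 2) _
      (fun r hr => hE q r (hF q hq).1 (hF q hq).2 (hP q hq r hr).1 (hP q hq r hr).2)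
      (fun r _ => (Real.exp_pos _).le)
      (fun r hr r' hr' h =>
        ((Nat.coprime_primes (hP q hq r hr).1 (hP q hq r' hr').1).2 h).pow 2 2)
  have hB' : ∀ q ∈ F, (∏ r ∈ P q, Real.exp (-(1 / (2 * (r : ℝ))))) ≤ ε / 4 / (F.card + 1) := by
    intro q hq
    refine le_trans (le_of_eq ?_) (hPε q hq)
    rw [← Real.exp_sum, sum_neg_distrib]
    congr 1
    rw [neg_div, sum_div]
    congr 1
    refine sum_congr rfl fun r _ => ?_
    rw [one_div, one_div, mul_inv, mul_comm, div_eq_mul_inv]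
  have key : ∀ N, cnt S N ≤ cnt (fun n => ∀ q ∈ F, n % q ≠ c q % q) N +
      ∑ q ∈ F, cnt (fun n => ∀ r ∈ P q, ¬ E r n) N := by
    intro N
    have h2 : cnt S N ≤ ((range N).filter (fun n => ∀ q ∈ F, n % q ≠ c q % q) ∪
        F.biUnion (fun q => (range N).filter (fun n => ∀ r ∈ P q, ¬ E r n))).card := by
      apply cnt_le_card
      intro n hn hSn
      rw [mem_union, mem_filter, mem_range, mem_biUnion]
      by_cases h3 : ∀ q ∈ F, n % q ≠ c q % q
      · exact Or.inl ⟨hn, h3⟩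
      · push Not at h3
        obtain ⟨q, hq, h4⟩ := h3
        refine Or.inr ⟨q, hq, ?_⟩
        rw [mem_filter, mem_range]
        exact ⟨hn, fun r hr h5 => hS n hSn q (hF q hq).1 (hF q hq).2 h4 r (hP q hq r hr).1
          (hP q hq r hr).2 h5⟩
    refine h2.trans ((card_union_le _ _).trans ?_)
    refine add_le_add (le_of_eq ?_) (card_biUnion_le.trans (sum_le_sum fun q _ => le_of_eq ?_))
    · unfold cnt
      congr
    · unfold cnt
      congr
  set K : ℝ := ((∏ q ∈ F, q : ℕ) : ℝ) + ∑ q ∈ F, ((∏ r ∈ P q, r ^ 2 : ℕ) : ℝ) with hK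
  have key2 : ∀ N : ℕ, (cnt S N : ℝ) ≤ ε / 2 * N + K := by
    intro N
    have h2 : (cnt S N : ℝ) ≤ (cnt (fun n => ∀ q ∈ F, n % q ≠ c q % q) N : ℝ) +
        ∑ q ∈ F, (cnt (fun n => ∀ r ∈ P q, ¬ E r n) N : ℝ) := by
      exact_mod_cast key N
    have h3 := hA.count N
    have h4 : ∑ q ∈ F, (cnt (fun n => ∀ r ∈ P q, ¬ E r n) N : ℝ) ≤
        ∑ q ∈ F, (ε / 4 / (F.card + 1) * N + ((∏ r ∈ P q, r ^ 2 : ℕ) : ℝ)) := by
      refine sum_le_sum fun q hq => ((hB q hq).count N).trans ?_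
      have := mul_le_mul_of_nonneg_right (hB' q hq) (Nat.cast_nonneg (α := ℝ) N)
      linarith
    rw [sum_add_distrib, sum_const, nsmul_eq_mul] at h4
    have h5 := mul_le_mul_of_nonneg_right hA' (Nat.cast_nonneg (α := ℝ) N)
    have h6 : (F.card : ℝ) * (ε / 4 / (F.card + 1) * N) ≤ ε / 4 * N := by
      have : (F.card : ℝ) * (ε / 4 / (F.card + 1) * N) =
          (ε / 4 * N) * (F.card / (F.card + 1)) := by field_simp
      rw [this]
      apply mul_le_of_le_one_right (by positivity)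
      rw [div_le_one hcardF]
      linarith
    linarith
  obtain ⟨N0, hN0⟩ := exists_nat_gt (2 * K / ε)
  refine ⟨N0 + 1, fun N hN => ?_⟩
  have hNpos : (0 : ℝ) < N := by
    have : 0 < N := by omega
    exact_mod_cast this
  have hNN : 2 * K / ε < N := by
    have : (N0 : ℝ) ≤ N := by exact_mod_cast (by omega : N0 ≤ N)
    linarith
  have hMN : K < ε / 2 * N := by
    rw [div_lt_iff₀ hε] at hNN
    linarith
  rw [Real.dist_eq, sub_zero, abs_of_nonneg (by positivity), div_lt_iff₀ hNpos]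
  have := key2 N
  linarith

end Pool.Agent.Q242.PO
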