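import Mathlib

/-!
# A number field contains the square roots of only finitely many primes
-/

set_option autoImplicit false

namespace Pool.Agent.Q242.PO

open Polynomial IntermediateField

/-- quadratic subfields with different radicands are different -/
theorem not_mem_adjoin {K : Type} [Field K] [CharZero K] {s s' : K} {a a' : ℤ}
    (hs : s ^ 2 = (a : K)) (hs' : s' ^ 2 = (a' : K)) (ha : ¬ IsSquare a) (ha' : ¬ IsSquare a')
    (haa : ¬ IsSquare (a * a')) : s' ∉ adjoin ℚ {s} := by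
  intro h
  set M : ℚ[X] := X ^ 2 - C (a : ℚ) with hM
  have hMm : M.Monic := monic_X_pow_sub_C _ two_ne_zero
  have hMs : aeval s M = 0 := by
    rw [hM, map_sub, map_pow, aeval_X, aeval_C, hs]
    simp
  have halg : IsAlgebraic ℚ s := ⟨M, hMm.ne_zero, hMs⟩
  have h1 : s' ∈ (adjoin ℚ {s}).toSubalgebra := h
  rw [adjoin_simple_toSubalgebra_of_isAlgebraic halg, Algebra.adjoin_singleton_eq_range_aeval] at h1
  obtain ⟨P, hP⟩ := h1
  have hP' : aeval s P = s' := hP
  set r := P %ₘ M with hr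
  have hdeg : r.natDegree < 2 := by
    have h1 := natDegree_modByMonic_lt P hMm (by
      intro h1
      have h2 := congrArg natDegree h1
      rw [hM, natDegree_X_pow_sub_C, natDegree_one] at h2
      omega)
    rwa [hM, natDegree_X_pow_sub_C] at h1
  have hrs : aeval s r = s' := by
    have h1 := modByMonic_add_div P M
    rw [← h1, map_add, map_mul, hMs, zero_mul, add_zero] at hP'
    exact hP'
  have hform : r = C (r.coeff 1) * X + C (r.coeff 0) :=
    eq_X_add_C_of_natDegree_le_one (by omega)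
  set y : ℚ := r.coeff 1 with hy
  set x : ℚ := r.coeff 0 with hx
  have h2 : (y : K) * s + (x : K) = s' := by
    rw [hform] at hrs
    simpa using hrs
  have h3 : (2 * (x : K) * y) * s = (a' : K) - (y : K) ^ 2 * a - (x : K) ^ 2 := by
    rw [← hs', ← h2, ← hs]
    ring
  by_cases hxy : 2 * x * y = 0
  · have hxy' : x = 0 ∨ y = 0 := by
      rcases mul_eq_zero.1 hxy with h4 | h4
      · left
        linarith
      · exact Or.inr h4
    have h4 : (a' : ℚ) = y ^ 2 * a + x ^ 2 := by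
      have h5 : ((2 * x * y : ℚ) : K) = 0 := by rw [hxy]; simp
      push_cast at h5
      rw [h5, zero_mul] at h3
      have h6 : (((a' : ℚ) - y ^ 2 * a - x ^ 2 : ℚ) : K) = 0 := by
        push_cast
        exact h3.symm
      have h7 : (a' : ℚ) - y ^ 2 * a - x ^ 2 = 0 := by exact_mod_cast h6
      linarith
    rcases hxy' with h5 | h5
    · apply haa
      rw [← Rat.isSquare_intCast_iff]
      refine ⟨y * a, ?_⟩
      push_cast
      rw [h4, h5]
      ring
    · apply ha'
      rw [← Rat.isSquare_intCast_iff]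
      refine ⟨x, ?_⟩
      rw [h4, h5]
      ring
  · apply ha
    rw [← Rat.isSquare_intCast_iff]
    refine ⟨((a' : ℚ) - y ^ 2 * a - x ^ 2) / (2 * x * y), ?_⟩
    have h4 : s = ((((a' : ℚ) - y ^ 2 * a - x ^ 2) / (2 * x * y) : ℚ) : K) := by
      have h5 : ((2 * x * y : ℚ) : K) ≠ 0 := by exact_mod_cast hxy
      push_cast at h5 ⊢
      rw [eq_div_iff h5, mul_comm]
      exact h3
    have h5 : (((a : ℚ)) : K) = (((((a' : ℚ) - y ^ 2 * a - x ^ 2) / (2 * x * y)) *
        (((a' : ℚ) - y ^ 2 * a - x ^ 2) / (2 * x * y)) : ℚ) : K) := by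
      rw [Rat.cast_mul, ← h4, ← sq, hs]
      simp
    exact_mod_cast h5

theorem not_sq_prime {q : ℕ} (hq : q.Prime) {e : ℤ} (he : e = 1 ∨ e = -1) :
    ¬ IsSquare (e * (q : ℤ)) := by
  rintro ⟨k, hk⟩
  have hq0 : (0 : ℤ) < q := by exact_mod_cast hq.pos
  rcases he with rfl | rfl
  · rw [one_mul] at hk
    exact (Nat.prime_iff_prime_int.1 hq).not_isSquare ⟨k, hk⟩
  · nlinarith [mul_self_nonneg k]

theorem not_sq_mul {q q' : ℕ} (hq : q.Prime) (hq' : q'.Prime) (hne : q ≠ q') {e : ℤ}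
    (he : e = 1 ∨ e = -1) : ¬ IsSquare (e * ((q : ℤ) * q')) := by
  rintro ⟨k, hk⟩
  have hq0 : (0 : ℤ) < (q : ℤ) * q' := by exact_mod_cast Nat.mul_pos hq.pos hq'.pos
  rcases he with rfl | rfl
  · rw [one_mul] at hk
    have hp := Nat.prime_iff_prime_int.1 hq
    have h1 : (q : ℤ) ∣ k * k := ⟨q', by rw [← hk]⟩
    have h2 : (q : ℤ) ∣ k := (hp.dvd_or_dvd h1).elim id id
    obtain ⟨m, rfl⟩ := h2
    have h3 : (q' : ℤ) = q * (m * m) := by
      have hq1 : (q : ℤ) ≠ 0 := by exact_mod_cast hq.ne_zero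
      apply mul_left_cancel₀ hq1
      rw [hk]
      ring
    have h4 : (q : ℤ) ∣ q' := ⟨_, h3⟩
    have h5 : q ∣ q' := by exact_mod_cast h4
    exact hne ((Nat.prime_dvd_prime_iff_eq hq hq').1 h5)
  · nlinarith [mul_self_nonneg k]

/-- A number field contains `√q` or `√-q` for finitely many primes `q` only. -/
theorem finite_sq (K : Type) [Field K] [NumberField K] :
    {q : ℕ | q.Prime ∧ ∃ e : ℤ, (e = 1 ∨ e = -1) ∧ ∃ s : K, s ^ 2 = ((e * (q : ℤ) : ℤ) : K)}.Finite := by
  classical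
  have hfin : Finite (IntermediateField ℚ K) :=
    Field.finite_intermediateField_of_exists_primitive_element ℚ K
      (Field.exists_primitive_element ℚ K)
  set S := {q : ℕ | q.Prime ∧ ∃ e : ℤ, (e = 1 ∨ e = -1) ∧ ∃ s : K, s ^ 2 = ((e * (q : ℤ) : ℤ) : K)}
    with hS
  have hch : ∀ q : ℕ, ∃ s : K, q ∈ S → ∃ e : ℤ, (e = 1 ∨ e = -1) ∧
      s ^ 2 = ((e * (q : ℤ) : ℤ) : K) := by
    intro q
    by_cases hq : q ∈ S
    · obtain ⟨_, e, he, s, hs⟩ := hq
      exact ⟨s, fun _ => ⟨e, he, hs⟩⟩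
    · exact ⟨0, fun h => absurd h hq⟩
  choose s hs using hch
  refine Set.Finite.of_finite_image (f := fun q => adjoin ℚ {s q}) (Set.toFinite _) ?_
  intro q hq q' hq' h
  by_contra hne
  obtain ⟨e, he, h1⟩ := hs q hq
  obtain ⟨e', he', h2⟩ := hs q' hq'
  refine not_mem_adjoin (s := s q) (s' := s q') h1 h2 (not_sq_prime hq.1 he) (not_sq_prime hq'.1 he')
    ?_ ?_
  · have h3 : e * (q : ℤ) * (e' * (q' : ℤ)) = (e * e') * ((q : ℤ) * q') := by ring
    rw [h3]
    refine not_sq_mul hq.1 hq'.1 hne ?_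
    rcases he with rfl | rfl <;> rcases he' with rfl | rfl <;> simp
  · have h3 : adjoin ℚ {s q} = adjoin ℚ {s q'} := h
    rw [h3]
    exact mem_adjoin_simple_self ℚ (s q')

end Pool.Agent.Q242.PO
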