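import Mathlib
import Pool.Agent.H921R2.TatePole.Count
import Pool.Agent.H921R2.TatePole.Tensor

/-!
# Homomorphisms to `𝔽_p` and quadratic extensions of number fields
-/

set_option autoImplicit false

namespace Pool.Agent.Q242.PO

open Polynomial NumberField Pool.Agent.H921R2.TatePole

section
variable {K K' : Type} [Field K] [NumberField K] [Field K'] [NumberField K'] [Algebra K K']

/-- common denominators of polynomials over `K` -/
theorem lift_poly (h : K[X]) :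
    ∃ N : ℤ, N ≠ 0 ∧ ∃ a : (𝓞 K)[X], a.map (algebraMap (𝓞 K) K) = (N : K[X]) * h := by
  induction h using Polynomial.induction_on' with
  | add p q hp hq =>
    obtain ⟨N1, h1, a1, e1⟩ := hp
    obtain ⟨N2, h2, a2, e2⟩ := hq
    refine ⟨N1 * N2, mul_ne_zero h1 h2, (N2 : (𝓞 K)[X]) * a1 + (N1 : (𝓞 K)[X]) * a2, ?_⟩
    rw [Polynomial.map_add, Polynomial.map_mul, Polynomial.map_mul, e1, e2,
      Polynomial.map_intCast, Polynomial.map_intCast, Int.cast_mul]
    ring
  | monomial n c =>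
    obtain ⟨N, hN, a, ha⟩ := exists_int_mul (K := K) c
    refine ⟨N, hN, monomial n a, ?_⟩
    rw [map_monomial, ← C_eq_intCast, C_mul_monomial]
    congr 1

/-- the map `𝓞_K[X] → 𝓞_K'`, `X ↦ b` -/
noncomputable def ev (b : 𝓞 K') : (𝓞 K)[X] →+* 𝓞 K' := eval₂RingHom (algebraMap (𝓞 K) (𝓞 K')) b

theorem ev_coe (b : 𝓞 K') (a : (𝓞 K)[X]) :
    ((ev (K := K) b a : 𝓞 K') : K') = aeval (b : K') (a.map (algebraMap (𝓞 K) K)) := by
  unfold ev
  rw [coe_eval₂RingHom, aeval_map_algebraMap, aeval_def]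
  exact hom_eval₂ a (algebraMap (𝓞 K) (𝓞 K')) (algebraMap (𝓞 K') K') b

theorem lattice (b : 𝓞 K') (hb : ∀ e : K', ∃ h : K[X], aeval (b : K') h = e) :
    ∃ N : ℤ, N ≠ 0 ∧ ∀ y : 𝓞 K', ∃ a : (𝓞 K)[X], ev (K := K) b a = (N : 𝓞 K') * y := by
  classical
  obtain ⟨s, hs⟩ : ∃ s : Finset (𝓞 K'), Submodule.span ℤ (s : Set (𝓞 K')) = ⊤ :=
    Module.Finite.fg_top
  have hlat : ∀ e : K', ∃ N : ℤ, N ≠ 0 ∧
      ∃ a, ((algebraMap (𝓞 K') K').comp (ev (K := K) b)) a = (N : K') * e := by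
    intro e
    obtain ⟨h, rfl⟩ := hb e
    obtain ⟨N, hN, a, ha⟩ := lift_poly h
    refine ⟨N, hN, a, ?_⟩
    change ((ev (K := K) b a : 𝓞 K') : K') = _
    rw [ev_coe, ha, map_mul, map_intCast]
  obtain ⟨N, hN0, hN⟩ := uniform_den ((algebraMap (𝓞 K') K').comp (ev (K := K) b)) hlat
    (κ := {x // x ∈ s}) (fun x => ((x : 𝓞 K') : K'))
  refine ⟨N, hN0, fun y => ?_⟩
  have hy : y ∈ Submodule.span ℤ (s : Set (𝓞 K')) := by rw [hs]; trivial
  induction hy using Submodule.span_induction with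
  | mem x hx =>
    obtain ⟨a, ha⟩ := hN ⟨x, hx⟩
    refine ⟨a, ?_⟩
    apply RingOfIntegers.ext
    simpa using ha
  | zero => exact ⟨0, by simp⟩
  | add x y _ _ hx hy =>
    obtain ⟨a, ha⟩ := hx
    obtain ⟨a', ha'⟩ := hy
    exact ⟨a + a', by rw [map_add, ha, ha', mul_add]⟩
  | smul n x _ hx =>
    obtain ⟨a, ha⟩ := hx
    refine ⟨(n : (𝓞 K)[X]) * a, ?_⟩
    rw [map_mul, map_intCast, ha, zsmul_eq_mul]
    ring

/-- **Quadratic extensions.** If `D` is not a square in `K`, every homomorphism `𝓞_K → 𝔽_p` has two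
extensions to `𝓞_K'`, `K' = K(√D)`, if `D` is a nonzero square modulo `p`. -/
theorem two_mul_hc_le {D : ℤ} {b : 𝓞 K'} (hbD : b ^ 2 = (D : 𝓞 K'))
    (hK : ∀ x : K, x ^ 2 ≠ (D : K)) (hb : ∀ e : K', ∃ h : K[X], aeval (b : K') h = e) :
    ∃ N : ℤ, N ≠ 0 ∧ ∀ p : Nat.Primes, ¬ ((p : ℕ) : ℤ) ∣ N → (p : ℕ) ≠ 2 →
      ¬ ((p : ℕ) : ℤ) ∣ D → IsSquare ((D : ℤ) : ZMod (p : ℕ)) →
        2 * hc (𝓞 K) (p : ℕ) ≤ hc (𝓞 K') (p : ℕ) := by
  obtain ⟨N, hN0, hN⟩ := lattice (K := K) b hb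
  refine ⟨N, hN0, fun p hpN hp2 hpD hsq => ?_⟩
  have hpf : Fact (p : ℕ).Prime := ⟨p.prop⟩
  obtain ⟨s, hs⟩ := hsq
  have hs0 : s ≠ 0 := by
    rintro rfl
    apply hpD
    rw [← ZMod.intCast_zmod_eq_zero_iff_dvd, hs]
    simp
  have hs2 : s ≠ -s := by
    intro h
    have h1 : (2 : ZMod (p : ℕ)) * s = 0 := by
      rw [two_mul]
      nth_rewrite 1 [h]
      ring
    rcases mul_eq_zero.1 h1 with h2 | h2
    · have h3 : ((2 : ℕ) : ZMod (p : ℕ)) = 0 := by exact_mod_cast h2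
      rw [ZMod.natCast_eq_zero_iff] at h3
      exact hp2 ((Nat.prime_dvd_prime_iff_eq p.prop Nat.prime_two).1 h3)
    · exact hs0 h2
  -- the monic polynomial
  set M : (𝓞 K)[X] := X ^ 2 - C (D : 𝓞 K) with hM
  have hMm : M.Monic := monic_X_pow_sub_C _ two_ne_zero
  have hevM : ev (K := K) b M = 0 := by
    unfold ev
    rw [coe_eval₂RingHom, hM, eval₂_sub, eval₂_pow, eval₂_X, eval₂_C, hbD, map_intCast, sub_self]
  -- the kernel
  have hker : ∀ a : (𝓞 K)[X], ev (K := K) b a = 0 → M ∣ a := by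
    intro a ha
    rw [← modByMonic_eq_zero_iff_dvd hMm]
    set r := a %ₘ M with hr
    have hdeg : r.natDegree < 2 := by
      have h1 := natDegree_modByMonic_lt a hMm (by
        intro h1
        have h2 := congrArg natDegree h1
        rw [hM, natDegree_X_pow_sub_C, natDegree_one] at h2
        omega)
      rwa [hM, natDegree_X_pow_sub_C] at h1
    have hr0 : ev (K := K) b r = 0 := by
      have h1 := modByMonic_add_div a M
      rw [← h1, map_add, map_mul, hevM, zero_mul, add_zero] at ha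
      exact ha
    have hform : r = C (r.coeff 1) * X + C (r.coeff 0) :=
      eq_X_add_C_of_natDegree_le_one (by omega)
    have h2 : algebraMap K K' ((r.coeff 1 : 𝓞 K) : K) * (b : K') +
        algebraMap K K' ((r.coeff 0 : 𝓞 K) : K) = 0 := by
      have h3 : ((ev (K := K) b r : 𝓞 K') : K') = 0 := by rw [hr0]; rfl
      rw [ev_coe, hform] at h3
      simpa using h3
    have h4 : ((r.coeff 1 : 𝓞 K) : K) = 0 := by
      by_contra h5
      apply hK (-((r.coeff 0 : 𝓞 K) : K) / ((r.coeff 1 : 𝓞 K) : K))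
      apply (algebraMap K K').injective
      have h6 : algebraMap K K' (-((r.coeff 0 : 𝓞 K) : K) / ((r.coeff 1 : 𝓞 K) : K)) = (b : K') := by
        have h7 : algebraMap K K' ((r.coeff 1 : 𝓞 K) : K) ≠ 0 := by
          rwa [Ne, map_eq_zero]
        rw [map_div₀, map_neg, div_eq_iff h7]
        linear_combination -h2
      rw [map_pow, h6, map_intCast]
      have h8 := congrArg (fun z : 𝓞 K' => (z : K')) hbD
      simpa using h8
    have h5 : ((r.coeff 0 : 𝓞 K) : K) = 0 := by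
      rw [h4, map_zero, zero_mul, zero_add, map_eq_zero] at h2
      exact h2
    rw [hform]
    have e1 : r.coeff 1 = 0 := RingOfIntegers.ext (by rw [h4]; rfl)
    have e0 : r.coeff 0 = 0 := RingOfIntegers.ext (by rw [h5]; rfl)
    rw [e1, e0]
    simp
  -- the extensions
  have hext : ∀ (φ : 𝓞 K →+* ZMod (p : ℕ)) (t : ZMod (p : ℕ)), t * t = ((D : ℤ) : ZMod (p : ℕ)) →
      ∃ ψ : 𝓞 K' →+* ZMod (p : ℕ), ψ.comp (ev (K := K) b) = eval₂RingHom φ t := by
    intro φ t ht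
    refine extend_hom (ev (K := K) b) hN hpN (eval₂RingHom φ t) ?_
    intro a ha
    rw [RingHom.mem_ker] at ha ⊢
    obtain ⟨c, rfl⟩ := hker a ha
    rw [map_mul]
    have h1 : (eval₂RingHom φ t) M = 0 := by
      rw [coe_eval₂RingHom, hM, eval₂_sub, eval₂_pow, eval₂_X, eval₂_C, map_intCast, sq, ht,
        sub_self]
    rw [h1, zero_mul]
  set tt : Bool → ZMod (p : ℕ) := fun i => if i then s else -s with htt
  have htt2 : ∀ i, tt i * tt i = ((D : ℤ) : ZMod (p : ℕ)) := by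
    intro i
    rw [hs]
    cases i <;> simp [htt]
  choose Ψ hΨ using fun x : (𝓞 K →+* ZMod (p : ℕ)) × Bool => hext x.1 (tt x.2) (htt2 x.2)
  have hinj : Function.Injective Ψ := by
    rintro ⟨φ, i⟩ ⟨φ', i'⟩ h
    have h1 : eval₂RingHom φ (tt i) = eval₂RingHom φ' (tt i') := by
      rw [← hΨ (φ, i), ← hΨ (φ', i'), h]
    have h2 : φ = φ' := by
      refine RingHom.ext fun x => ?_
      have := RingHom.congr_fun h1 (C x)
      simpa using this
    have h3 : tt i = tt i' := by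
      have := RingHom.congr_fun h1 X
      simpa using this
    rw [h2]
    congr 1
    cases i <;> cases i' <;> simp only [htt] at h3 <;> first | rfl | skip
    · exact absurd h3.symm hs2
    · exact absurd h3 hs2
  have hfin : Finite (𝓞 K' →+* ZMod (p : ℕ)) := hom_finite p
  have h1 := Nat.card_le_card_of_injective _ hinj
  rw [Nat.card_prod] at h1
  unfold hc
  have h2 : Nat.card Bool = 2 := by simp
  rw [h2] at h1
  omega

end

end Pool.Agent.Q242.PO
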