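import Mathlib

/-!
# Quadratic reciprocity in the form needed
-/

set_option autoImplicit false

namespace Pool.Agent.Q242.PO

/-- the sign of `q* = ± q ≡ 1 (mod 4)` -/
def sg (q : ℕ) : ℤ := if q % 4 = 1 then 1 else -1

theorem sg_or (q : ℕ) : sg q = 1 ∨ sg q = -1 := by
  unfold sg
  split_ifs <;> simp

theorem nonres_of {p q : ℕ} (hp : p.Prime) (hq : q.Prime) (hp2 : p ≠ 2) (hq2 : q ≠ 2)
    (h : ¬ IsSquare (((sg q * (q : ℤ) : ℤ)) : ZMod p)) :
    (p : ZMod q) ^ ((q - 1) / 2) = -1 := by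
  have : Fact p.Prime := ⟨hp⟩
  have : Fact q.Prime := ⟨hq⟩
  have h1 : legendreSym p (sg q * (q : ℤ)) = -1 := by
    rw [legendreSym.eq_neg_one_iff]
    exact h
  have hpo : p % 2 = 1 := Nat.odd_iff.1 (hp.odd_of_ne_two hp2)
  have hqo : q % 2 = 1 := Nat.odd_iff.1 (hq.odd_of_ne_two hq2)
  have h2 := legendreSym.quadratic_reciprocity' (p := p) (q := q) hp2 hq2
  have h3 : legendreSym q p = -1 := by
    rw [h2]
    unfold sg at h1
    split_ifs at h1 with h4
    · rw [one_mul] at h1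
      rw [h1]
      have h5 : Even (p / 2 * (q / 2)) := by
        refine Even.mul_left ?_ _
        rw [Nat.even_iff]
        omega
      rw [h5.neg_one_pow]
      norm_num
    · rw [legendreSym.mul, legendreSym.at_neg_one hp2, ZMod.χ₄_eq_neg_one_pow hpo] at h1
      have h5 : Odd (q / 2) := by
        rw [Nat.odd_iff]
        omega
      have h6 : (-1 : ℤ) ^ (p / 2 * (q / 2)) = (-1) ^ (p / 2) := by
        rw [mul_comm, pow_mul, h5.neg_one_pow]
      rw [h6]
      exact h1
  have h4 := legendreSym.eq_pow q (p : ℤ)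
  rw [h3] at h4
  have h5 : q / 2 = (q - 1) / 2 := by omega
  rw [h5] at h4
  push_cast at h4
  exact h4.symm

end Pool.Agent.Q242.PO
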