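import Mathlib
import Pool.Agent.H771R2.Dens
import Pool.Agent.H474R2.PG.HomsRho
import Pool.Agent.H921R2.TatePole.BaseChange
import Pool.Agent.Q242.PO.Quad
import Pool.Agent.Q242.PO.Fin
import Pool.Agent.Q242.PO.Recip

/-!
# Primes modulo which a polynomial has a root and which are nonresidues modulo `q`
-/

set_option autoImplicit false

namespace Pool.Agent.Q242.PO

open Polynomial NumberField Filter Topology Finset
open Pool.Agent.H921R2.TatePole Pool.Agent.H771R2.Dens Pool.Agent.H474R2.PG

theorem W_tendsto1 : Tendsto W (𝓝[>] 1) atTop := by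
  obtain ⟨C, hC⟩ := W_sub_Lam_bdd
  have hL : Tendsto Lam (𝓝[>] 1) atTop := by
    unfold Lam
    refine Real.tendsto_log_atTop.comp ?_
    have h1 : Tendsto (fun x : ℝ => x - 1) (𝓝[>] 1) (𝓝[>] 0) := by
      rw [tendsto_nhdsWithin_iff]
      constructor
      · have : Tendsto (fun x : ℝ => x - 1) (𝓝 1) (𝓝 (1 - 1)) := tendsto_id.sub_const 1
        simpa using this.mono_left nhdsWithin_le_nhds
      · filter_upwards [self_mem_nhdsWithin] with x hx
        exact sub_pos.mpr (Set.mem_Ioi.mp hx)
    have h2 := tendsto_inv_nhdsGT_zero.comp h1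
    refine h2.congr fun x => ?_
    simp [Function.comp]
  refine tendsto_atTop_mono' (𝓝[>] 1) (f₁ := fun x => Lam x - C) ?_
    (tendsto_atTop_add_const_right _ _ hL)
  filter_upwards [hC] with x hx
  have := (abs_le.mp hx).1
  linarith

/-- a number field containing a square root of `D` and of degree two over `K` -/
theorem exists_ext (K : Type) [Field K] [NumberField K] (D : ℤ) (hK : ∀ x : K, x ^ 2 ≠ (D : K)) :
    ∃ (K' : Type) (_ : Field K') (_ : NumberField K') (_ : Algebra K K') (b : 𝓞 K'),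
      b ^ 2 = (D : 𝓞 K') ∧ ∀ e : K', ∃ h : K[X], aeval (b : K') h = e := by
  obtain ⟨P, hP⟩ : ∃ P : K[X], P = X ^ 2 - C (D : K) := ⟨_, rfl⟩
  have hirr : Irreducible P := by
    rw [hP]
    exact X_pow_sub_C_irreducible_of_prime Nat.prime_two hK
  have hfact : Fact (Irreducible P) := ⟨hirr⟩
  have hfin : Module.Finite K (AdjoinRoot P) := (AdjoinRoot.powerBasis hirr.ne_zero).finite
  have hch : CharZero (AdjoinRoot P) :=
    charZero_of_injective_algebraMap (algebraMap K (AdjoinRoot P)).injective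
  have hnf : NumberField (AdjoinRoot P) := NumberField.of_module_finite K _
  have hs2 : (AdjoinRoot.root P) ^ 2 = (D : AdjoinRoot P) := by
    have h0 : eval₂ (AdjoinRoot.of P) (AdjoinRoot.root P) (X ^ 2 - C (D : K)) = 0 := by
      have h1 := AdjoinRoot.eval₂_root P
      have h2 : eval₂ (AdjoinRoot.of P) (AdjoinRoot.root P) (X ^ 2 - C (D : K)) =
          eval₂ (AdjoinRoot.of P) (AdjoinRoot.root P) P := congrArg _ hP.symm
      rw [h2]
      exact h1
    rw [eval₂_sub, eval₂_pow, eval₂_X, eval₂_C, map_intCast, sub_eq_zero] at h0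
    exact h0
  have hint : IsIntegral ℤ (AdjoinRoot.root P) := by
    refine ⟨X ^ 2 - C D, monic_X_pow_sub_C _ two_ne_zero, ?_⟩
    rw [eval₂_sub, eval₂_pow, eval₂_X, eval₂_C, hs2]
    simp
  obtain ⟨b, hb⟩ : ∃ b : 𝓞 (AdjoinRoot P), (b : AdjoinRoot P) = AdjoinRoot.root P :=
    ⟨⟨AdjoinRoot.root P, hint⟩, rfl⟩
  refine ⟨AdjoinRoot P, inferInstance, hnf, inferInstance, b, ?_, ?_⟩
  · apply RingOfIntegers.ext
    have h1 : ((b ^ 2 : 𝓞 (AdjoinRoot P)) : AdjoinRoot P) = (b : AdjoinRoot P) ^ 2 :=
      map_pow (algebraMap (𝓞 (AdjoinRoot P)) (AdjoinRoot P)) b 2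
    have h2 : ((D : 𝓞 (AdjoinRoot P)) : AdjoinRoot P) = (D : AdjoinRoot P) :=
      map_intCast (algebraMap (𝓞 (AdjoinRoot P)) (AdjoinRoot P)) D
    exact h1.trans ((by rw [hb, hs2] : (b : AdjoinRoot P) ^ 2 = (D : AdjoinRoot P)).trans h2.symm)
  · intro e
    obtain ⟨h, rfl⟩ := AdjoinRoot.mk_surjective e
    refine ⟨h, ?_⟩
    rw [hb]
    exact AdjoinRoot.aeval_eq h

/-- **Primes modulo which a polynomial has a root and which are nonresidues modulo `q`.** -/
theorem big_nonres (g : ℤ[X]) (hg : Irreducible g) (hd : 0 < g.natDegree) :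
    ∃ K0 : ℕ, ∀ q : ℕ, q.Prime → K0 < q →
      Big (fun r => rho g r ≠ 0 ∧ (r : ZMod q) ^ ((q - 1) / 2) = -1) := by
  classical
  obtain ⟨K, iF, iN, B, hB⟩ := homs_le_rho g hg hd
  obtain ⟨K1, hK1⟩ := (finite_sq K).bddAbove
  refine ⟨max K1 2, fun q hq hqK => ?_⟩
  have hq2 : q ≠ 2 := by
    have := le_max_right K1 2
    omega
  set D : ℤ := sg q * (q : ℤ) with hD
  have hK : ∀ x : K, x ^ 2 ≠ (D : K) := by
    intro x hx
    have h1 := hK1 (show q ∈ _ from ⟨hq, sg q, sg_or q, x, hx⟩)
    have := le_max_left K1 2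
    omega
  obtain ⟨K', iF', iN', iA, b, hb2, hb⟩ := exists_ext K D hK
  obtain ⟨N, hN0, hN⟩ := two_mul_hc_le (K := K) hb2 hK hb
  by_contra hcon
  unfold Big at hcon
  push Not at hcon
  obtain ⟨B1, hB1⟩ := hcon
  have hB10 : 0 ≤ B1 := by
    have h1 := hB1 ∅ (by simp)
    simp only [Finset.sum_empty] at h1
    exact h1.le
  set T : ℕ := max (max B N.natAbs) q with hT
  have hTB : B ≤ T := (le_max_left _ _).trans (le_max_left _ _)
  have hTN : N.natAbs ≤ T := (le_max_right _ _).trans (le_max_left _ _)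
  have hTq : q ≤ T := le_max_right _ _
  set d : ℝ := (Module.finrank ℚ K : ℝ) with hd'
  have hd0 : 0 ≤ d := by positivity
  set ind : Nat.Primes → ℝ := fun p =>
    if (rho g (p : ℕ) ≠ 0 ∧ ((p : ℕ) : ZMod q) ^ ((q - 1) / 2) = -1) then 1 else 0 with hind
  set ex : Nat.Primes → ℝ := fun p => if (p : ℕ) ≤ T then 1 else 0 with hex
  -- termwise
  have hterm : ∀ (x : ℝ) (p : Nat.Primes), (R K p : ℝ) * w x p ≤
      1 / 2 * ((R K' p : ℝ) * w x p) + d * (ind p * w x p) + d * (ex p * w x p) := by
    intro x p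
    have hw := w_nonneg x p
    have hRd : (R K p : ℝ) ≤ d := by rw [hd']; exact_mod_cast R_le p
    have hR' : (0 : ℝ) ≤ (R K' p : ℝ) := by positivity
    have hi0 : 0 ≤ ind p := by simp only [hind]; split_ifs <;> norm_num
    have he0 : 0 ≤ ex p := by simp only [hex]; split_ifs <;> norm_num
    have hkey : (R K p : ℝ) ≤ 1 / 2 * (R K' p : ℝ) + d * ind p + d * ex p := by
      by_cases hpT : (p : ℕ) ≤ T
      · have : ex p = 1 := by simp only [hex]; rw [if_pos hpT]
        rw [this]
        nlinarith [mul_nonneg hd0 hi0]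
      push Not at hpT
      have hpN : ¬ ((p : ℕ) : ℤ) ∣ N := by
        intro h
        have h1 : (p : ℕ) ∣ N.natAbs := by
          have := Int.natAbs_dvd_natAbs.2 h
          simpa using this
        have := Nat.le_of_dvd (Int.natAbs_pos.2 hN0) h1
        omega
      have hp2 : (p : ℕ) ≠ 2 := by
        have := hq.two_le
        omega
      have hpq : (p : ℕ) ≠ q := by omega
      have hpD : ¬ ((p : ℕ) : ℤ) ∣ D := by
        intro h
        rw [hD] at h
        have h1 : ((p : ℕ) : ℤ) ∣ (q : ℤ) := by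
          rcases sg_or q with h2 | h2
          · rw [h2, one_mul] at h
            exact h
          · rw [h2, neg_one_mul, dvd_neg] at h
            exact h
        have h2 : (p : ℕ) ∣ q := by exact_mod_cast h1
        exact hpq ((Nat.prime_dvd_prime_iff_eq p.prop hq).1 h2)
      by_cases hsq : IsSquare ((D : ℤ) : ZMod (p : ℕ))
      · have h1 := hN p hpN hp2 hpD hsq
        have h2 : (2 : ℝ) * (R K p : ℝ) ≤ (R K' p : ℝ) := by
          rw [R_eq_hc, R_eq_hc]
          exact_mod_cast h1
        nlinarith [mul_nonneg hd0 hi0, mul_nonneg hd0 he0]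
      · have hnr := nonres_of p.prop hq hp2 hq2 hsq
        by_cases hR0 : R K p = 0
        · rw [hR0]
          push_cast
          nlinarith [mul_nonneg hd0 hi0, mul_nonneg hd0 he0]
        · have h1 : rho g (p : ℕ) ≠ 0 := by
            intro h2
            have h3 := hB p p.prop (by omega)
            rw [h2] at h3
            apply hR0
            rw [R_eq_hc]
            unfold hc
            omega
          have h2 : ind p = 1 := by
            simp only [hind]
            rw [if_pos ⟨h1, hnr⟩]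
          rw [h2]
          nlinarith [mul_nonneg hd0 he0]
    have h1 := mul_le_mul_of_nonneg_right hkey hw
    linarith [h1, show (1 / 2 * (R K' p : ℝ) + d * ind p + d * ex p) * w x p =
      1 / 2 * ((R K' p : ℝ) * w x p) + d * (ind p * w x p) + d * (ex p * w x p) by ring]
  -- the sums
  obtain ⟨C1, hC1⟩ := sum_R_bdd (K := K)
  obtain ⟨C2, hC2⟩ := sum_R_bdd (K := K')
  have hev := W_tendsto1.eventually_gt_atTop (2 * (C1 + 1 / 2 * C2 + d * B1 + d * (T + 1)) + 1)
  obtain ⟨x, ⟨hx1, hx2, hx3⟩, hx⟩ := ((hC1.and (hC2.and hev)).and self_mem_nhdsWithin).exists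
  have hx' : (1 : ℝ) < x := hx
  have hRs : Summable (fun p : Nat.Primes => (R K p : ℝ) * w x p) :=
    bddmul_summable hx' (C := Module.finrank ℚ K) fun p => by
      rw [abs_of_nonneg (by positivity)]; exact_mod_cast R_le p
  have hRs' : Summable (fun p : Nat.Primes => (R K' p : ℝ) * w x p) :=
    bddmul_summable hx' (C := Module.finrank ℚ K') fun p => by
      rw [abs_of_nonneg (by positivity)]; exact_mod_cast R_le p
  have his : Summable (fun p : Nat.Primes => ind p * w x p) :=
    bddmul_summable hx' (C := 1) fun p => by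
      simp only [hind]; split_ifs <;> simp
  have hes : Summable (fun p : Nat.Primes => ex p * w x p) :=
    bddmul_summable hx' (C := 1) fun p => by
      simp only [hex]; split_ifs <;> simp
  have hws := w_summable hx'
  have hW : W x = ∑' p, w x p := rfl
  have e1 : ∑' p : Nat.Primes, ((R K p : ℝ) - 1) * w x p =
      ∑' p : Nat.Primes, (R K p : ℝ) * w x p - W x := by
    have e : ∀ p : Nat.Primes, ((R K p : ℝ) - 1) * w x p = (R K p : ℝ) * w x p - w x p :=
      fun p => by ring
    rw [tsum_congr e, Summable.tsum_sub hRs hws, hW]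
  have e2 : ∑' p : Nat.Primes, ((R K' p : ℝ) - 1) * w x p =
      ∑' p : Nat.Primes, (R K' p : ℝ) * w x p - W x := by
    have e : ∀ p : Nat.Primes, ((R K' p : ℝ) - 1) * w x p = (R K' p : ℝ) * w x p - w x p :=
      fun p => by ring
    rw [tsum_congr e, Summable.tsum_sub hRs' hws, hW]
  simp only [] at hx1 hx2
  rw [e1] at hx1
  rw [e2] at hx2
  have hsum := Summable.tsum_le_tsum (hterm x) hRs
    (((hRs'.mul_left (1 / 2)).add (his.mul_left d)).add (hes.mul_left d))
  rw [Summable.tsum_add ((hRs'.mul_left (1 / 2)).add (his.mul_left d)) (hes.mul_left d),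
    Summable.tsum_add (hRs'.mul_left (1 / 2)) (his.mul_left d), tsum_mul_left, tsum_mul_left,
    tsum_mul_left] at hsum
  have hwle : ∀ p : Nat.Primes, w x p ≤ 1 / ((p : ℕ) : ℝ) := by
    intro p
    unfold w
    have hp1 : (1 : ℝ) ≤ ((p : ℕ) : ℝ) := by exact_mod_cast p.2.one_lt.le
    rw [one_div, ← Real.rpow_neg_one]
    exact Real.rpow_le_rpow_of_exponent_le hp1 (by linarith)
  have hI : ∑' p : Nat.Primes, ind p * w x p ≤ B1 := by
    refine his.tsum_le_of_sum_le fun s => ?_
    have h1 := hB1 ((s.filter (fun p : Nat.Primes => rho g (p : ℕ) ≠ 0 ∧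
      ((p : ℕ) : ZMod q) ^ ((q - 1) / 2) = -1)).image (fun p : Nat.Primes => (p : ℕ))) (by
        intro p hp
        rw [Finset.mem_image] at hp
        obtain ⟨p', hp', rfl⟩ := hp
        rw [Finset.mem_filter] at hp'
        exact ⟨p'.prop, hp'.2⟩)
    rw [Finset.sum_image (by
      intro p _ p' _ h
      exact Nat.Primes.coe_nat_injective h)] at h1
    refine le_trans ?_ h1.le
    rw [Finset.sum_filter]
    refine Finset.sum_le_sum fun p _ => ?_
    simp only [hind]
    split_ifs
    · rw [one_mul]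
      exact hwle p
    · simp
  have hE : ∑' p : Nat.Primes, ex p * w x p ≤ (T : ℝ) + 1 := by
    refine hes.tsum_le_of_sum_le fun s => ?_
    have h1 : ∀ p : Nat.Primes, ex p * w x p ≤ if (p : ℕ) ≤ T then (1 : ℝ) else 0 := by
      intro p
      simp only [hex]
      split_ifs
      · rw [one_mul]
        refine (hwle p).trans ?_
        have hp1 : (1 : ℝ) ≤ ((p : ℕ) : ℝ) := by exact_mod_cast p.2.one_lt.le
        rw [div_le_one (by linarith)]
        exact hp1
      · simp
    refine (Finset.sum_le_sum fun p _ => h1 p).trans ?_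
    rw [← Finset.sum_filter, Finset.sum_const, nsmul_eq_mul, mul_one]
    have h2 : (s.filter (fun p : Nat.Primes => (p : ℕ) ≤ T)).card ≤ (Finset.range (T + 1)).card := by
      refine Finset.card_le_card_of_injOn (fun p : Nat.Primes => (p : ℕ)) ?_ ?_
      · intro p hp
        simp only [Finset.coe_filter, Set.mem_ofPred_eq] at hp
        simp only [Finset.coe_range, Set.mem_Iio]
        omega
      · intro p _ p' _ h
        exact Nat.Primes.coe_nat_injective h
    rw [Finset.card_range] at h2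
    exact_mod_cast h2
  have h1 := (abs_le.1 hx1).1
  have h2 := (abs_le.1 hx2).2
  have h3 := mul_le_mul_of_nonneg_left hI hd0
  have h4 := mul_le_mul_of_nonneg_left hE hd0
  linarith

end Pool.Agent.Q242.PO
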