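import Mathlib
import Pool.Agent.Q242.PO.Dens
import Pool.Agent.H474R2.PG.MertensF

/-!
# Polynomials: factors of odd multiplicity, Bezout identities, roots
-/

set_option autoImplicit false

namespace Pool.Agent.Q242.PO

open Polynomial Finset Filter Topology
open Pool.Agent.H771R2.Dens Pool.Agent.H474R2.PG

theorem lift_rat (P : ℚ[X]) :
    ∃ N : ℤ, N ≠ 0 ∧ ∃ a : ℤ[X], a.map (Int.castRingHom ℚ) = (N : ℚ[X]) * P := by
  induction P using Polynomial.induction_on' with
  | add p q hp hq =>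
    obtain ⟨N1, h1, a1, e1⟩ := hp
    obtain ⟨N2, h2, a2, e2⟩ := hq
    refine ⟨N1 * N2, mul_ne_zero h1 h2, (N2 : ℤ[X]) * a1 + (N1 : ℤ[X]) * a2, ?_⟩
    rw [Polynomial.map_add, Polynomial.map_mul, Polynomial.map_mul, e1, e2,
      Polynomial.map_intCast, Polynomial.map_intCast, Int.cast_mul]
    ring
  | monomial n c =>
    refine ⟨(c.den : ℤ), by exact_mod_cast c.den_ne_zero, monomial n c.num, ?_⟩
    rw [map_monomial, ← C_eq_intCast, C_mul_monomial]
    congr 1
    rw [eq_intCast]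
    push_cast
    exact (Rat.den_mul_eq_num c).symm

/-- a Bezout identity over the integers -/
theorem bezout (g h : ℤ[X]) (hg : Irreducible g) (hd : 0 < g.natDegree) (hh : ¬ g ∣ h) :
    ∃ (u v : ℤ[X]) (N : ℤ), N ≠ 0 ∧ u * g + v * h = C N := by
  have hprim : g.IsPrimitive := hg.isPrimitive hd.ne'
  have hF : Irreducible (g.map (Int.castRingHom ℚ)) :=
    (IsPrimitive.Int.irreducible_iff_irreducible_map_cast hprim).1 hg
  have hh0 : h ≠ 0 := by
    rintro rfl
    exact hh (dvd_zero g)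
  have hnd : ¬ g.map (Int.castRingHom ℚ) ∣ h.map (Int.castRingHom ℚ) := by
    intro h1
    apply hh
    have hc : h.content ≠ 0 := by
      rw [Ne, content_eq_zero_iff]
      exact hh0
    have h2 : h = C h.content * h.primPart := h.eq_C_content_mul_primPart
    rw [h2, Polynomial.map_mul, map_C] at h1
    have hu : IsUnit (C ((Int.castRingHom ℚ) h.content)) := by
      rw [isUnit_C, isUnit_iff_ne_zero, eq_intCast]
      exact_mod_cast hc
    have h3 := (hu.dvd_mul_left).1 h1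
    have h4 : g ∣ h.primPart :=
      (IsPrimitive.Int.dvd_iff_map_cast_dvd_map_cast g h.primPart hprim).2 h3
    exact h4.trans h.primPart_dvd
  obtain ⟨a, b, hab⟩ := (hF.coprime_iff_not_dvd).2 hnd
  obtain ⟨N1, hN1, a1, ha1⟩ := lift_rat a
  obtain ⟨N2, hN2, b1, hb1⟩ := lift_rat b
  refine ⟨(N2 : ℤ[X]) * a1, (N1 : ℤ[X]) * b1, N1 * N2, mul_ne_zero hN1 hN2, ?_⟩
  apply map_injective (Int.castRingHom ℚ) (Int.cast_injective (α := ℚ))
  rw [Polynomial.map_add, Polynomial.map_mul, Polynomial.map_mul, Polynomial.map_mul,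
    Polynomial.map_mul, ha1, hb1, Polynomial.map_intCast, Polynomial.map_intCast, map_C]
  have e : (C ((Int.castRingHom ℚ) (N1 * N2)) : ℚ[X]) = (N1 : ℚ[X]) * (N2 : ℚ[X]) := by
    rw [map_mul, C_mul]
    simp
  rw [e]
  linear_combination ((N1 : ℚ[X]) * (N2 : ℚ[X])) * hab

theorem exists_factor (f : ℤ[X]) (hf : 0 < f.natDegree) :
    ∃ g : ℤ[X], Irreducible g ∧ 0 < g.natDegree ∧ g ∣ f := by
  have h0 : f.primPart ≠ 0 := f.primPart_ne_zero
  have hnu : ¬ IsUnit f.primPart := by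
    intro h
    have h1 := natDegree_eq_zero_of_isUnit h
    rw [natDegree_primPart] at h1
    omega
  obtain ⟨g, hg, hgf⟩ := WfDvdMonoid.exists_irreducible_factor hnu h0
  refine ⟨g, hg, ?_, hgf.trans f.primPart_dvd⟩
  by_contra h1
  have h2 : g.natDegree = 0 := by omega
  rw [natDegree_eq_zero] at h2
  obtain ⟨a, rfl⟩ := h2
  have h3 := (isPrimitive_iff_isUnit_of_C_dvd.1 f.isPrimitive_primPart) a hgf
  exact hg.not_isUnit (isUnit_C.2 h3)

/-- A polynomial which is not of the form `c g ^ 2` has an irreducible factor of odd multiplicity. -/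
theorem exists_odd_factor : ∀ (d : ℕ) (f : ℤ[X]), f.natDegree ≤ d →
    (¬ ∃ (c : ℤ) (g : ℤ[X]), f = C c * g ^ 2) →
    ∃ (g h : ℤ[X]) (e : ℕ), Irreducible g ∧ 0 < g.natDegree ∧ Odd e ∧ f = g ^ e * h ∧ ¬ g ∣ h := by
  intro d
  induction d with
  | zero =>
    intro f hf hn
    exfalso
    apply hn
    obtain ⟨c, hc⟩ := natDegree_eq_zero.1 (Nat.le_zero.1 hf)
    exact ⟨c, 1, by rw [hc]; ring⟩
  | succ d ih =>
    intro f hf hn
    have hf0 : f ≠ 0 := by
      rintro rfl
      exact hn ⟨0, 0, by simp⟩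
    by_cases hd0 : f.natDegree = 0
    · exfalso
      apply hn
      obtain ⟨c, hc⟩ := natDegree_eq_zero.1 hd0
      exact ⟨c, 1, by rw [hc]; ring⟩
    obtain ⟨g, hg, hgd, hgf⟩ := exists_factor f (by omega)
    have hfm : FiniteMultiplicity g f := FiniteMultiplicity.of_not_isUnit hg.not_isUnit hf0
    obtain ⟨h, hfh, hgh⟩ := hfm.exists_eq_pow_mul_and_not_dvd
    set e := multiplicity g f with he
    rcases Nat.even_or_odd e with hev | hodd
    · have he0 : e ≠ 0 := by
        intro h0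
        rw [h0, pow_zero, one_mul] at hfh
        exact hgh (hfh ▸ hgf)
      have hh0 : h ≠ 0 := by
        rintro rfl
        exact hgh (dvd_zero g)
      have hdeg : h.natDegree ≤ d := by
        have h1 := congrArg natDegree hfh
        rw [natDegree_mul (pow_ne_zero _ hg.ne_zero) hh0, natDegree_pow] at h1
        have h2 : 1 ≤ e * g.natDegree := Nat.mul_pos (by omega) hgd
        omega
      obtain ⟨k, hk⟩ := hev
      have hn' : ¬ ∃ (c : ℤ) (g : ℤ[X]), h = C c * g ^ 2 := by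
        rintro ⟨c, g', rfl⟩
        apply hn
        refine ⟨c, g ^ k * g', ?_⟩
        rw [hfh, hk]
        ring
      obtain ⟨g', h', e', h1, h2, h3, h4, h5⟩ := ih h hdeg hn'
      refine ⟨g', g ^ e * h', e', h1, h2, h3, ?_, ?_⟩
      · rw [hfh, h4]
        ring
      · intro h6
        rcases h1.prime.dvd_or_dvd h6 with h7 | h7
        · have h8 := h1.prime.dvd_of_dvd_pow h7
          have h9 : Associated g' g := h1.associated_of_dvd hg h8
          apply hgh
          rw [h4]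
          have h10 : g' ∣ g' ^ e' := dvd_pow_self g' h3.pos.ne'
          exact (h9.dvd_iff_dvd_left.1 h10).mul_right h'
        · exact h5 h7
    · exact ⟨g, h, e, hg, hgd, hodd, hfh, hgh⟩

/-- the event `r ∥ g(n)` -/
def Ev (g : ℤ[X]) (r n : ℕ) : Prop := (r : ℤ) ∣ g.eval (n : ℤ) ∧ ¬ (r : ℤ) ^ 2 ∣ g.eval (n : ℤ)

theorem per_poly (g : ℤ[X]) {r : ℕ} (hr : r.Prime) {N : ℤ} {u v : ℤ[X]}
    (huv : u * g + v * derivative g = C N) (hrN : ¬ (r : ℤ) ∣ N) (hroot : rho g r ≠ 0) :
    Per (fun n => ¬ Ev g r n) (r ^ 2) (Real.exp (-(1 / (2 * (r : ℝ))))) := by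
  classical
  have hper : ∀ n, Ev g r (n + r ^ 2) ↔ Ev g r n := by
    intro n
    have h1 : ((r : ℤ) ^ 2) ∣ g.eval ((n + r ^ 2 : ℕ) : ℤ) - g.eval (n : ℤ) := by
      have h2 := sub_dvd_eval_sub ((n + r ^ 2 : ℕ) : ℤ) (n : ℤ) g
      have h3 : ((n + r ^ 2 : ℕ) : ℤ) - (n : ℤ) = (r : ℤ) ^ 2 := by push_cast; ring
      rwa [h3] at h2
    have h2 : (r : ℤ) ∣ g.eval ((n + r ^ 2 : ℕ) : ℤ) - g.eval (n : ℤ) :=
      (dvd_pow_self _ two_ne_zero).trans h1
    unfold Ev
    rw [← dvd_iff_dvd_of_dvd_sub h1, ← dvd_iff_dvd_of_dvd_sub h2]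
  obtain ⟨a, ha⟩ : ((Finset.range r).filter (fun a : ℕ => (r : ℤ) ∣ g.eval (a : ℤ))).Nonempty := by
    rw [← Finset.card_pos]
    exact Nat.pos_of_ne_zero hroot
  rw [Finset.mem_filter, Finset.mem_range] at ha
  obtain ⟨har, b, hb⟩ := ha
  have hgd : ¬ (r : ℤ) ∣ (derivative g).eval (a : ℤ) := by
    intro h
    apply hrN
    have h1 := congrArg (fun P => P.eval (a : ℤ)) huv
    simp only [eval_add, eval_mul, eval_C] at h1
    rw [← h1, hb]
    exact dvd_add ((Dvd.intro _ rfl : (r : ℤ) ∣ (r : ℤ) * b).mul_left _) (h.mul_left _)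
  have hprime : Prime (r : ℤ) := Nat.prime_iff_prime_int.1 hr
  have hr0 : (r : ℤ) ≠ 0 := hprime.ne_zero
  -- values at `a + r t`
  have hval : ∀ t : ℕ, (r : ℤ) ∣ g.eval ((a + r * t : ℕ) : ℤ) ∧
      ((r : ℤ) ^ 2 ∣ g.eval ((a + r * t : ℕ) : ℤ) ↔
        (r : ℤ) ∣ b + (derivative g).eval (a : ℤ) * t) := by
    intro t
    obtain ⟨k, hk⟩ := binomExpansion g (a : ℤ) ((r : ℤ) * t)
    have h1 : g.eval ((a + r * t : ℕ) : ℤ) =
        (r : ℤ) * ((b + (derivative g).eval (a : ℤ) * t) + r * (k * t ^ 2)) := by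
      push_cast
      rw [hk, hb]
      ring
    rw [h1]
    refine ⟨Dvd.intro _ rfl, ?_⟩
    rw [sq, mul_dvd_mul_iff_left hr0]
    exact (Int.dvd_add_left (Dvd.intro _ rfl))
  have huniq : ∀ t t' : ℕ, t < r → t' < r →
      (r : ℤ) ∣ b + (derivative g).eval (a : ℤ) * t →
      (r : ℤ) ∣ b + (derivative g).eval (a : ℤ) * t' → t = t' := by
    intro t t' ht ht' h1 h2
    have h3 : (r : ℤ) ∣ (derivative g).eval (a : ℤ) * ((t : ℤ) - t') := by
      have := dvd_sub h1 h2
      have h4 : b + (derivative g).eval (a : ℤ) * t - (b + (derivative g).eval (a : ℤ) * t') =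
        (derivative g).eval (a : ℤ) * ((t : ℤ) - t') := by ring
      rwa [h4] at this
    rcases hprime.dvd_or_dvd h3 with h4 | h4
    · exact absurd h4 hgd
    · have h5 := Int.emod_emod_of_dvd (t : ℤ) (dvd_refl (r : ℤ))
      have h6 : ((t : ℤ) - t') = 0 := Int.eq_zero_of_abs_lt_dvd h4 (by
        rw [abs_lt]
        constructor <;> omega)
      omega
  obtain ⟨t0, ht0⟩ : ∃ t0 : ℕ, ∀ t, t < r → t ≠ t0 →
      ¬ (r : ℤ) ∣ b + (derivative g).eval (a : ℤ) * t := by
    by_cases hex : ∃ t, t < r ∧ (r : ℤ) ∣ b + (derivative g).eval (a : ℤ) * t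
    · obtain ⟨t1, h1, h2⟩ := hex
      exact ⟨t1, fun t ht hne h => hne (huniq t t1 ht h1 h h2)⟩
    · push Not at hex
      exact ⟨0, fun t ht _ => hex t ht⟩
  exact per_of_many hr (Ev g r) hper har (t0 := t0) fun t ht hne =>
    ⟨(hval t).1, fun h => ht0 t ht hne ((hval t).2.1 h)⟩

/-- the primes modulo which an irreducible polynomial has a root -/
theorem big_root (g : ℤ[X]) (hg : Irreducible g) (hd : 0 < g.natDegree) :
    Big (fun q => rho g q ≠ 0) := by
  obtain ⟨C0, hC⟩ := mertens_lower g hg hd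
  obtain ⟨B, hB⟩ := rho_le g hg.ne_zero
  intro B0
  set A : ℝ := ∑ p ∈ (Finset.range (B + 1)), (rho g p : ℝ) / (p : ℝ) with hA
  have hdpos : (0 : ℝ) < g.natDegree := by exact_mod_cast hd
  have htend : Tendsto (fun w : ℝ => Real.log (Real.log w)) atTop atTop :=
    Real.tendsto_log_atTop.comp Real.tendsto_log_atTop
  obtain ⟨w, hw1, hw3⟩ := ((htend.eventually_ge_atTop (C0 + A + g.natDegree * B0)).and
    (eventually_ge_atTop 3)).exists
  have h1 := hC w hw3
  refine ⟨(PR w).filter (fun p => rho g p ≠ 0), ?_, ?_⟩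
  · intro p hp
    rw [Finset.mem_filter] at hp
    exact ⟨(Finset.mem_filter.1 hp.1).2, hp.2⟩
  · have h2 : Sg (rho g) w ≤ A + g.natDegree * ∑ p ∈ (PR w).filter (fun p => rho g p ≠ 0),
        1 / (p : ℝ) := by
      unfold Sg
      rw [← Finset.sum_filter_add_sum_filter_not (PR w) (fun p => p ≤ B)]
      apply add_le_add
      · rw [hA]
        apply Finset.sum_le_sum_of_subset_of_nonneg
        · intro p hp
          rw [Finset.mem_filter] at hp
          rw [Finset.mem_range]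
          omega
        · intro p _ _
          positivity
      · rw [Finset.mul_sum, Finset.sum_filter, Finset.sum_filter]
        apply Finset.sum_le_sum
        intro p hp
        have hpp : p.Prime := (Finset.mem_filter.1 hp).2
        by_cases hpB : p ≤ B
        · rw [if_neg (not_not.2 hpB)]
          split_ifs <;> positivity
        · rw [if_pos hpB]
          by_cases h0 : rho g p = 0
          · rw [h0, if_neg (by simp)]
            simp
          · rw [if_pos h0]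
            have h3 : (rho g p : ℝ) ≤ g.natDegree := by exact_mod_cast hB p hpp (not_le.1 hpB)
            rw [mul_one_div]
            exact div_le_div_of_nonneg_right h3 (by positivity)
    have h3 : (g.natDegree : ℝ) * B0 ≤ g.natDegree *
        ∑ p ∈ (PR w).filter (fun p => rho g p ≠ 0), 1 / (p : ℝ) := by linarith
    exact le_of_mul_le_mul_left h3 hdpos

/-- the primes modulo which some value of `f` has order `l` -/
theorem big_cyc (f : ℤ[X]) (hf : 0 < f.natDegree) {l : ℕ} (hl : l.Prime) :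
    Big (fun q => ∃ c : ℕ, ((f.eval (c : ℤ) : ℤ) : ZMod q) ^ l = 1 ∧
      ((f.eval (c : ℤ) : ℤ) : ZMod q) ≠ 1) := by
  have : Fact l.Prime := ⟨hl⟩
  set G : ℤ[X] := (cyclotomic l ℤ).comp f with hG
  have hGd : 0 < G.natDegree := by
    rw [hG, natDegree_comp, natDegree_cyclotomic]
    exact Nat.mul_pos (Nat.totient_pos.2 hl.pos) hf
  obtain ⟨g, hg, hgd, hgG⟩ := exists_factor G hGd
  intro B0
  obtain ⟨F, hF, hB⟩ := (big_root g hg hgd).large l B0
  refine ⟨F, fun q hq => ⟨(hF q hq).1, ?_⟩, hB⟩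
  obtain ⟨hqp, hrho, hql⟩ := hF q hq
  have : Fact q.Prime := ⟨hqp⟩
  obtain ⟨a, ha⟩ : ((Finset.range q).filter (fun a : ℕ => (q : ℤ) ∣ g.eval (a : ℤ))).Nonempty := by
    rw [← Finset.card_pos]
    exact Nat.pos_of_ne_zero hrho
  rw [Finset.mem_filter] at ha
  have h1 : (q : ℤ) ∣ (cyclotomic l ℤ).eval (f.eval (a : ℤ)) := by
    have h2 : g.eval (a : ℤ) ∣ G.eval (a : ℤ) := by
      obtain ⟨k, hk⟩ := hgG
      rw [hk, eval_mul]
      exact Dvd.intro _ rfl
    rw [hG, eval_comp] at h2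
    exact ha.2.trans h2
  refine ⟨a, ?_, ?_⟩
  · have h2 : (cyclotomic l ℤ).eval (f.eval (a : ℤ)) ∣ (f.eval (a : ℤ)) ^ l - 1 := by
      have h3 := cyclotomic.dvd_X_pow_sub_one l ℤ
      obtain ⟨k, hk⟩ := h3
      have h4 := congrArg (fun P => P.eval (f.eval (a : ℤ))) hk
      simp only [eval_sub, eval_pow, eval_X, eval_one, eval_mul] at h4
      rw [h4]
      exact Dvd.intro _ rfl
    have h3 := h1.trans h2
    rw [← ZMod.intCast_zmod_eq_zero_iff_dvd] at h3
    push_cast at h3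
    exact sub_eq_zero.1 h3
  · intro h2
    have h3 : (q : ℤ) ∣ f.eval (a : ℤ) - 1 := by
      rw [← ZMod.intCast_zmod_eq_zero_iff_dvd]
      push_cast
      rw [h2, sub_self]
    have h4 := sub_dvd_eval_sub (f.eval (a : ℤ)) 1 (cyclotomic l ℤ)
    rw [eval_one_cyclotomic_prime] at h4
    have h5 := (dvd_sub_right h1).1 (h3.trans h4)
    have h6 : q ∣ l := by exact_mod_cast h5
    have := Nat.le_of_dvd hl.pos h6
    omega

end Pool.Agent.Q242.PO
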