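import Mathlib
import Pool.Agent.H771R2.SingerDS
import Pool.Agent.Q242.PO.Poly
import Pool.Agent.Q242.PO.Nonres

/-!
# Difference sets with Singer parameters of polynomial order
-/

set_option autoImplicit false

namespace Pool.Agent.Q242.PO

open Polynomial Filter Topology Finset
open Pool.Agent.H771R2.Dens Pool.Agent.H771R2.Lander Pool.Agent.H771R2.SingerDS
open Pool.Agent.H474R2.PG

/-- the exclusion, with an odd power of `r` in `n` -/
theorem excluded' {n m l q r e u : ℕ} (hm : Odd m) (hm3 : 3 ≤ m) (hlm : l ∣ m)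
    (hn : 2 ≤ n) (h : HasSinger n m) (hq : q.Prime)
    (hqn : (n : ZMod q) ^ l = 1) (hqn1 : (n : ZMod q) ≠ 1) (hr : r.Prime) (he : Odd e)
    (hru : ¬ r ∣ u) (hnu : n = r ^ e * u) (hrq : (r : ZMod q) ^ ((q - 1) / 2) = -1) :
    False := by
  obtain ⟨G, hG, hGf, hGd, D, h1, h2, h3⟩ := h
  have : Fact q.Prime := ⟨hq⟩
  have hn1 : 0 < n - 1 := by omega
  -- sizes
  have hgeom : ∀ j : ℕ, (∑ i ∈ Finset.range j, n ^ i) * (n - 1) = n ^ j - 1 := by
    intro j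
    exact Nat.geomSum_eq (by omega) j ▸ (Nat.div_mul_cancel (by
      simpa using Nat.sub_dvd_pow_sub_pow n 1 j))
  have hv : Fintype.card G = ∑ i ∈ Finset.range m, n ^ i :=
    Nat.eq_of_mul_eq_mul_right hn1 (h1.trans (hgeom m).symm)
  have hk : D.card = ∑ i ∈ Finset.range (m - 1), n ^ i :=
    Nat.eq_of_mul_eq_mul_right hn1 (h2.trans (hgeom (m - 1)).symm)
  have hlam : ∀ g : G, g ≠ 1 → ((D ×ˢ D).filter (fun p : G × G => p.1 * p.2⁻¹ = g)).card =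
      ∑ i ∈ Finset.range (m - 2), n ^ i := fun g hg =>
    Nat.eq_of_mul_eq_mul_right hn1 ((h3 g hg).trans (hgeom (m - 2)).symm)
  -- `v` is odd
  have hodd : Odd (Fintype.card G) := by
    obtain ⟨j, rfl⟩ := hm
    rw [hv]
    exact odd_geom n j
  -- `q ∣ v`
  have hqv : q ∣ Fintype.card G := by
    rw [← ZMod.natCast_eq_zero_iff]
    have h4 : ((Fintype.card G * (n - 1) : ℕ) : ZMod q) = 0 := by
      rw [h1, Nat.cast_sub (Nat.one_le_pow _ _ (by omega))]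
      obtain ⟨t, rfl⟩ := hlm
      push_cast
      rw [pow_mul, hqn, one_pow, sub_self]
    rw [Nat.cast_mul] at h4
    rcases mul_eq_zero.1 h4 with h5 | h5
    · exact h5
    · exfalso
      rw [Nat.cast_sub (by omega), sub_eq_zero] at h5
      exact hqn1 (by simpa using h5)
  have hru' : ¬ (r : ℤ) ∣ ((u : ℤ) ^ (m - 2)) := by
    intro h4
    have h5 := (Nat.prime_iff_prime_int.1 hr).dvd_of_dvd_pow h4
    exact hru (by exact_mod_cast h5)
  have hm2 : Odd (m - 2) := by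
    obtain ⟨j, rfl⟩ := hm
    exact ⟨j - 1, by omega⟩
  refine no_difference_set D _ _ hk hlam hodd hq hqv hr hrq (a := e * (m - 2)) (he.mul hm2)
    hru' ?_
  have h4 : m - 1 = (m - 2) + 1 := by omega
  rw [h4, Finset.sum_range_succ]
  push_cast
  rw [hnu]
  push_cast
  rw [mul_pow, ← pow_mul]
  ring

theorem natDegree_pos_of {f : ℤ[X]} (hf : ¬ ∃ (c : ℤ) (g : ℤ[X]), f = C c * g ^ 2) :
    0 < f.natDegree := by
  by_contra h
  obtain ⟨c, hc⟩ := natDegree_eq_zero.1 (Nat.eq_zero_of_not_pos h)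
  exact hf ⟨c, 1, by rw [hc]; ring⟩

theorem not_dvd_derivative {g : ℤ[X]} (hgd : 0 < g.natDegree) : ¬ g ∣ derivative g := by
  intro h
  have h1 : derivative g ≠ 0 := by
    intro h0
    have := natDegree_eq_zero_of_derivative_eq_zero h0
    omega
  have h2 := natDegree_le_of_dvd h h1
  have h3 := natDegree_derivative_lt hgd.ne'
  omega

theorem main (f : ℤ[X]) (hf : ¬ ∃ (c : ℤ) (g : ℤ[X]), f = C c * g ^ 2) {l : ℕ} (hl : l.Prime) :
    Tendsto (fun N : ℕ => (cnt (fun k => ∃ n : ℕ, (n : ℤ) = f.eval (k : ℤ) ∧ 2 ≤ n ∧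
      ∃ m, Odd m ∧ 3 ≤ m ∧ l ∣ m ∧ HasSinger n m) N : ℝ) / N) atTop (𝓝 0) := by
  classical
  obtain ⟨g, h, e, hg, hgd, he, hfg, hgh⟩ := exists_odd_factor f.natDegree f le_rfl hf
  obtain ⟨u1, v1, N1, hN1, e1⟩ := bezout g h hg hgd hgh
  obtain ⟨u2, v2, N2, hN2, e2⟩ := bezout g (derivative g) hg hgd (not_dvd_derivative hgd)
  obtain ⟨K0, hK0⟩ := big_nonres g hg hgd
  have h1 : ∀ q : ℕ, ∃ c : ℕ, (∃ c : ℕ, ((f.eval (c : ℤ) : ℤ) : ZMod q) ^ l = 1 ∧
      ((f.eval (c : ℤ) : ℤ) : ZMod q) ≠ 1) → ((f.eval (c : ℤ) : ℤ) : ZMod q) ^ l = 1 ∧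
      ((f.eval (c : ℤ) : ℤ) : ZMod q) ≠ 1 := by
    intro q
    by_cases hq : ∃ c : ℕ, ((f.eval (c : ℤ) : ℤ) : ZMod q) ^ l = 1 ∧
      ((f.eval (c : ℤ) : ℤ) : ZMod q) ≠ 1
    · obtain ⟨c, hc⟩ := hq
      exact ⟨c, fun _ => hc⟩
    · exact ⟨0, fun h' => absurd h' hq⟩
  choose c hc using h1
  refine tendsto_zero_ev _ (fun q => (∃ c : ℕ, ((f.eval (c : ℤ) : ℤ) : ZMod q) ^ l = 1 ∧
      ((f.eval (c : ℤ) : ℤ) : ZMod q) ≠ 1) ∧ K0 < q) c
    (fun q r => (rho g r ≠ 0 ∧ (r : ZMod q) ^ ((q - 1) / 2) = -1) ∧ N1.natAbs + N2.natAbs < r)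
    (fun r k => Ev g r k) ((big_cyc f (natDegree_pos_of hf) hl).large K0) ?_ ?_ ?_
  · intro q hq hq'
    exact (hK0 q hq hq'.2).large _
  · intro q r hq hq' hr hrr
    refine per_poly g hr e2 ?_ hrr.1.1
    intro h2
    have h3 := Int.natAbs_dvd_natAbs.2 h2
    rw [Int.natAbs_natCast] at h3
    have h4 := Nat.le_of_dvd (Int.natAbs_pos.2 hN2) h3
    have h5 := hrr.2
    omega
  · rintro k ⟨n, hn, hn2, m, hm, hm3, hlm, hS⟩ q hq ⟨hq1, hq2⟩ hnc r hr ⟨⟨hr1, hr2⟩, hr3⟩ hE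
    obtain ⟨h4, h5⟩ := hc q hq1
    have h6 : (q : ℤ) ∣ f.eval (k : ℤ) - f.eval (c q : ℤ) := by
      refine dvd_trans ?_ (sub_dvd_eval_sub (k : ℤ) (c q : ℤ) f)
      have h7 : k ≡ c q [MOD q] := hnc
      have h8 := (Nat.modEq_iff_dvd.1 h7.symm)
      exact h8
    have h7 : ((f.eval (k : ℤ) : ℤ) : ZMod q) = ((f.eval (c q : ℤ) : ℤ) : ZMod q) := by
      rw [← sub_eq_zero, ← Int.cast_sub, ZMod.intCast_zmod_eq_zero_iff_dvd]
      exact h6
    rw [← h7, ← hn, Int.cast_natCast] at h4 h5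
    -- the power of `r`
    obtain ⟨hE1, hE2⟩ := hE
    obtain ⟨w, hw⟩ := hE1
    have hrw : ¬ (r : ℤ) ∣ w := by
      rintro ⟨w', hw'⟩
      exact hE2 ⟨w', by rw [hw, hw']; ring⟩
    have hprime : Prime (r : ℤ) := Nat.prime_iff_prime_int.1 hr
    have hrh : ¬ (r : ℤ) ∣ h.eval (k : ℤ) := by
      intro h8
      have h9 := congrArg (fun P => P.eval (k : ℤ)) e1
      simp only [eval_add, eval_mul, eval_C] at h9
      have h10 : (r : ℤ) ∣ N1 := by
        rw [← h9, hw]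
        exact dvd_add ((Dvd.intro _ rfl : (r : ℤ) ∣ (r : ℤ) * w).mul_left _) (h8.mul_left _)
      have h11 := Int.natAbs_dvd_natAbs.2 h10
      rw [Int.natAbs_natCast] at h11
      have h12 := Nat.le_of_dvd (Int.natAbs_pos.2 hN1) h11
      omega
    have hval : (n : ℤ) = (r : ℤ) ^ e * (w ^ e * h.eval (k : ℤ)) := by
      rw [hn, hfg, eval_mul, eval_pow, hw, mul_pow]
      ring
    have hvd : ¬ (r : ℤ) ∣ (w ^ e * h.eval (k : ℤ)) := by
      intro h8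
      rcases hprime.dvd_or_dvd h8 with h9 | h9
      · exact hrw (hprime.dvd_of_dvd_pow h9)
      · exact hrh h9
    have hnu : n = r ^ e * (w ^ e * h.eval (k : ℤ)).natAbs := by
      have h8 := congrArg Int.natAbs hval
      rwa [Int.natAbs_natCast, Int.natAbs_mul, Int.natAbs_pow, Int.natAbs_natCast] at h8
    refine excluded' hm hm3 hlm hn2 hS hq h4 h5 hr he (u := (w ^ e * h.eval (k : ℤ)).natAbs) ?_
      hnu hr2
    intro h8
    exact hvd (Int.natCast_dvd.2 h8)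

end Pool.Agent.Q242.PO
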